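import Pool.Agent.Lib.MP_77749b_gt.Final

namespace Pool.Agent.Results.MP_77749b_gt.DimThree

open Pool.Agent.Lib.MP_77749b_gt

universe u

/-- The modified Bing-Borsuk conjecture in dimension three: every locally compact homogeneous
ANR of covering dimension `3` is a generalized `3`-manifold. -/
theorem result {X : Type u} [TopologicalSpace X] [LocallyCompactSpace X] (hA : IsANR X)
    (hh : IsHomogeneous X) (hd : HasCoveringDim X 3) : IsGeneralizedManifold X 3 :=
  main hA hh hd

end Pool.Agent.Results.MP_77749b_gt.DimThree
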